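import Pool.Agent.MP_5f4cdd_gt.EQ.Stmt
import Pool.Agent.MP_5f4cdd_gt.CB.SNorm

set_option autoImplicit false
open MeasureTheory Matrix Set Filter Topology
open scoped ENNReal

namespace Pool.Agent.MP_5f4cdd_gt.EQ

theorem nrm_stmt : NrmStmt := by
  intro n K hcv hc hint
  obtain ⟨v, hv⟩ := hint
  have hT0 : (0 : Fin n → ℝ) ∈ (fun x => x - v) '' K := ⟨v, interior_subset hv, sub_self v⟩
  have hTc : IsCompact ((fun x => x - v) '' K) := hc.image (by fun_prop)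
  have hTcv : Convex ℝ ((fun x => x - v) '' K) := by
    simpa only [sub_eq_neg_add] using hcv.translate (-v)
  have hspan : Submodule.span ℝ ((fun x => x - v) '' K) = ⊤ := by
    refine Submodule.eq_top_of_nonempty_interior' _ ⟨0, ?_⟩
    rw [mem_interior_iff_mem_nhds] at hv ⊢
    have h1 : (fun w : Fin n → ℝ => w + v) ⁻¹' K ∈ 𝓝 0 := by
      refine ContinuousAt.preimage_mem_nhds (by fun_prop) ?_
      simpa using hv
    exact mem_of_superset h1 fun w hw => Submodule.subset_span ⟨w + v, hw, add_sub_cancel_right w v⟩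
  obtain ⟨a, ha, hd, hout⟩ := CB.maxdet_Norm _ hTc hspan
  have hu : IsUnit ((Matrix.of a)ᵀ).det := by
    rw [Matrix.det_transpose]
    exact hd.isUnit
  let L : (Fin n → ℝ) ≃ₗ[ℝ] (Fin n → ℝ) :=
    Matrix.toLin'OfInv (Matrix.mul_nonsing_inv _ hu) (Matrix.nonsing_inv_mul _ hu)
  have hL : ∀ x, L x = ((Matrix.of a)ᵀ)⁻¹ *ᵥ x := fun x => rfl
  refine ⟨(AffineEquiv.vaddConst ℝ v).symm.trans L.toAffineEquiv, fun ζ hζ => ?_, ?_⟩
  · obtain ⟨x, hx, e⟩ := CB.comb_Norm _ hTcv hT0 a ha ζ hζ.1 hζ.2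
    refine ⟨x, hx, ?_⟩
    change L (x - v) = ζ
    have e' : x - v = (Matrix.of a)ᵀ *ᵥ ζ := e
    rw [hL, e', Matrix.mulVec_mulVec, Matrix.nonsing_inv_mul _ hu, Matrix.one_mulVec]
  · rintro _ ⟨x, hx, rfl⟩
    rw [mem_closedBall_zero_iff]
    exact hout _ ⟨x, hx, rfl⟩

end Pool.Agent.MP_5f4cdd_gt.EQ
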